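import Pool.Agent.K1H25.JS.Stm

/-!
# `S_WE` and `S_ZERO`
-/

set_option autoImplicit false

namespace Pool.Agent.K1H21.JS

open Matrix Filter Topology K1H25.JS

theorem prodN_eq (α : ℝ) (x : ℕ → Bool) (n : ℕ) :
    prodN α x n = α ^ ((pre x n).count true) • ev A0 A1 (pre x n) := by
  induction n with
  | zero => simp [prodN, pre, ev]
  | succ n ih =>
    rw [prodN, ih, pre]
    cases h : x n with
    | false => simp [letter, ev]
    | true => simp [letter, ev, smul_smul, pow_succ]

theorem nrm_smul (c : ℝ) (M : M2) : nrm (c • M) = |c| * nrm M := by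
  simp only [nrm, Matrix.smul_apply, smul_eq_mul, abs_mul, Finset.mul_sum]

theorem ev_nonneg (w : List Bool) :
    (∀ i j, 0 ≤ ev A0 A1 w i j) ∧ 1 ≤ ev A0 A1 w 0 0 ∧ 1 ≤ ev A0 A1 w 1 1 := by
  induction w with
  | nil =>
    refine ⟨?_, by simp [ev], by simp [ev]⟩
    intro i j
    fin_cases i <;> fin_cases j <;> simp [ev]
  | cons a w ih =>
    obtain ⟨h, h0, h1⟩ := ih
    have h01 := h 0 1
    have h10 := h 1 0
    have h00 := h 0 0
    have h11 := h 1 1
    cases a with
    | false =>
      have he : ev A0 A1 (false :: w) = A0 * ev A0 A1 w := rfl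
      rw [he]
      generalize ev A0 A1 w = M at *
      refine ⟨?_, ?_, ?_⟩
      · intro i j
        fin_cases i <;> fin_cases j <;>
          simp [A0, Matrix.mul_apply, Fin.sum_univ_two] <;> linarith
      · simp [A0, Matrix.mul_apply, Fin.sum_univ_two]; linarith
      · simp [A0, Matrix.mul_apply, Fin.sum_univ_two]; linarith
    | true =>
      have he : ev A0 A1 (true :: w) = A1 * ev A0 A1 w := rfl
      rw [he]
      generalize ev A0 A1 w = M at *
      refine ⟨?_, ?_, ?_⟩
      · intro i j
        fin_cases i <;> fin_cases j <;>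
          simp [A1, Matrix.mul_apply, Fin.sum_univ_two] <;> linarith
      · simp [A1, Matrix.mul_apply, Fin.sum_univ_two]; linarith
      · simp [A1, Matrix.mul_apply, Fin.sum_univ_two]; linarith

theorem nrm_ev_pos (w : List Bool) : 0 < nrm (ev A0 A1 w) := by
  obtain ⟨h, h0, h1⟩ := ev_nonneg w
  simp only [nrm, Fin.sum_univ_two]
  have := abs_nonneg (ev A0 A1 w 0 1)
  have := abs_nonneg (ev A0 A1 w 1 0)
  have := abs_nonneg (ev A0 A1 w 1 1)
  have := le_abs_self (ev A0 A1 w 0 0)
  linarith

theorem nrm_prodN (t : ℝ) (x : ℕ → Bool) (n : ℕ) :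
    nrm (prodN (Real.exp t) x n) = Real.exp (wt t (pre x n)) := by
  rw [prodN_eq, nrm_smul, abs_of_pos (by positivity), wt, Real.exp_add,
    Real.exp_log (nrm_ev_pos _), mul_comm t, Real.exp_nat_mul]

theorem root_eq (t : ℝ) (x : ℕ → Bool) (n : ℕ) :
    nrm (prodN (Real.exp t) x n) ^ (1 / (n : ℝ)) = Real.exp (wt t (pre x n) / n) := by
  rw [nrm_prodN, ← Real.exp_mul, mul_one_div]

theorem t_WE : S_WE := by
  intro hpos t x
  unfold WeaklyExtremal
  simp only [root_eq]
  constructor
  · intro h
    have h2 := (Real.continuousAt_log (hpos t).ne').tendsto.comp h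
    simpa [Function.comp_def, Lam] using h2
  · intro h
    have h2 := (Real.continuous_exp.tendsto _).comp h
    simpa [Function.comp_def, Lam, Real.exp_log (hpos t)] using h2

/-! ### `α = 0` -/

theorem nrm_zero : nrm (0 : M2) = 0 := by simp [nrm]

theorem A0_pow (n : ℕ) : A0 ^ n = !![1, (n : ℝ); 0, 1] := by
  induction n with
  | zero =>
    ext i j
    fin_cases i <;> fin_cases j <;> simp
  | succ n ih =>
    rw [pow_succ', ih, A0]
    ext i j
    fin_cases i <;> fin_cases j <;> simp [Matrix.mul_apply, Fin.sum_univ_two]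

theorem nrm_A0_pow (n : ℕ) : nrm (A0 ^ n) = (n : ℝ) + 2 := by
  rw [A0_pow]
  simp [nrm, Fin.sum_univ_two]
  ring

theorem tend_root : Tendsto (fun n : ℕ => ((n : ℝ) + 2) ^ (1 / (n : ℝ))) atTop (𝓝 1) := by
  have h1 := tendsto_rpow_div_mul_add 1 1 (-2) (by norm_num)
  have h2 : Tendsto (fun n : ℕ => (n : ℝ) + 2) atTop atTop :=
    tendsto_atTop_add_const_right _ _ tendsto_natCast_atTop_atTop
  have h3 := h1.comp h2
  refine h3.congr ?_
  intro n
  simp only [Function.comp_apply]
  congr 2
  ring

theorem letter0_false : letter 0 false = A0 := rfl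
theorem letter0_true : letter 0 true = 0 := by simp [letter]

theorem sup_eq (n : ℕ) (hn : 1 ≤ n) :
    (⨆ i : Fin n → Bool, nrm ((List.ofFn fun j => letter 0 (i j)).prod) ^ (1 / (n : ℝ))) =
      ((n : ℝ) + 2) ^ (1 / (n : ℝ)) := by
  have hfalse : nrm ((List.ofFn fun _ : Fin n => letter 0 false).prod) ^ (1 / (n : ℝ)) =
      ((n : ℝ) + 2) ^ (1 / (n : ℝ)) := by
    rw [List.ofFn_const, List.prod_replicate, letter0_false, nrm_A0_pow]
  apply le_antisymm
  · apply ciSup_le
    intro i
    by_cases h : ∀ j, i j = false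
    · have : i = fun _ => false := funext h
      rw [this, hfalse]
    · push Not at h
      obtain ⟨j, hj⟩ := h
      have hz : (List.ofFn fun j => letter 0 (i j)).prod = 0 := by
        apply List.prod_eq_zero
        rw [List.mem_ofFn]
        exact ⟨j, by rw [Bool.ne_false_iff.mp hj]; exact letter0_true⟩
      rw [hz, nrm_zero, Real.zero_rpow (by
        have : (0 : ℝ) < n := by exact_mod_cast hn
        positivity)]
      positivity
  · rw [← hfalse]
    exact le_ciSup (f := fun i : Fin n → Bool =>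
      nrm ((List.ofFn fun j => letter 0 (i j)).prod) ^ (1 / (n : ℝ)))
      (Set.finite_range _).bddAbove (fun _ => false)

theorem jsr_zero : jsr 0 = 1 := by
  unfold jsr
  apply Tendsto.limsup_eq
  refine tend_root.congr' ?_
  filter_upwards [eventually_ge_atTop 1] with n hn
  exact (sup_eq n hn).symm

theorem prodN_zero_false (x : ℕ → Bool) (h : ∀ n, x n = false) (n : ℕ) :
    prodN 0 x n = A0 ^ n := by
  induction n with
  | zero => rfl
  | succ n ih => rw [prodN, ih, h, letter0_false, pow_succ']

theorem prodN_zero_true (x : ℕ → Bool) {m : ℕ} (h : x m = true) (n : ℕ) :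
    prodN 0 x (m + 1 + n) = 0 := by
  induction n with
  | zero => rw [add_zero, prodN, h, letter0_true, zero_mul]
  | succ n ih => rw [← add_assoc, prodN, ih, mul_zero]

theorem t_ZERO : S_ZERO := by
  intro x
  unfold WeaklyExtremal
  rw [jsr_zero]
  constructor
  · intro h
    by_contra hcon
    push Not at hcon
    obtain ⟨m, hm⟩ := hcon
    have hm' : x m = true := Bool.ne_false_iff.mp hm
    have h0 : Tendsto (fun n : ℕ => nrm (prodN 0 x n) ^ (1 / (n : ℝ))) atTop (𝓝 0) := by
      refine tendsto_const_nhds.congr' ?_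
      filter_upwards [eventually_ge_atTop (m + 1)] with n hn
      obtain ⟨k, rfl⟩ := Nat.exists_eq_add_of_le hn
      rw [prodN_zero_true x hm', nrm_zero, Real.zero_rpow]
      have : (0 : ℝ) < ((m + 1 + k : ℕ) : ℝ) := by exact_mod_cast (by omega)
      positivity
    have := tendsto_nhds_unique h h0
    norm_num at this
  · intro h
    refine tend_root.congr ?_
    intro n
    rw [prodN_zero_false x h, nrm_A0_pow]

end Pool.Agent.K1H21.JS
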